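import Pool.Agent.Lib.MP_ccd96b_co.HTLower
import Pool.Agent.Lib.MP_ccd96b_co.HTUpper
import Pool.Agent.Lib.MP_ccd96b_co.Root

/-!
The maximal translative constants in the relative norm, for all three normalised volumes.
-/

set_option autoImplicit false

open Set
open scoped Pointwise

namespace Pool.Agent.Results.MP_ccd96b_co.Full

open Pool.Agent.Lib.MP_ccd96b_co

/-- the integral in the equation for the parameter -/
noncomputable def intT (d : ℕ) (ν : ℝ) : ℝ :=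
  ∫ p in (0 : ℝ)..1, (1 - p) ^ (d - 1) /
    (√(ν ^ 2 + p * (1 - p) ^ (d - 1)) * (√(ν ^ 2 + p * (1 - p) ^ (d - 1)) + ν))

/-- the integral in the value of the Holmes-Thompson constant -/
noncomputable def intI (d : ℕ) (ν : ℝ) : ℝ :=
  ∫ p in (0 : ℝ)..1, (1 - p) ^ (d - 1) / √(ν ^ 2 + p * (1 - p) ^ (d - 1))

lemma intT_eq (m : ℕ) (ν : ℝ) : intT (m + 1) ν = TT m ν := by
  refine intervalIntegral.integral_congr fun p hp => ?_
  rw [uIcc_of_le zero_le_one] at hp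
  simp only [RR_eq hp, Nat.add_sub_cancel]

lemma intI_eq (m : ℕ) (ν : ℝ) : intI (m + 1) ν = II m ν := by
  refine intervalIntegral.integral_congr fun p hp => ?_
  rw [uIcc_of_le zero_le_one] at hp
  simp only [RR_eq hp, Nat.add_sub_cancel]

theorem result (d : ℕ) (hd : 2 ≤ d) :
    (∃ ν : ℝ, (∀ x : ℝ, (0 < x ∧ Real.exp (-intT d x / 4) = 2 * x) ↔ x = ν) ∧
      IsGreatest {x : ℝ | ∃ K : Set (EuclideanSpace ℝ (Fin d)), IsBody K ∧ x = cTr volHT K}
        (kappa (d - 1) ^ 2 / kappa d * (4 * ν + intI d ν) ^ 2)) ∧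
    IsGreatest {x : ℝ | ∃ K : Set (EuclideanSpace ℝ (Fin d)), IsBody K ∧ x = cTr volMass K}
      (kappa d + 2 * kappa (d - 1)) ∧
    IsGreatest {x : ℝ | ∃ K : Set (EuclideanSpace ℝ (Fin d)), IsBody K ∧ x = cTr volMassStar K}
      ((d + 1) * 2 ^ d) := by
  obtain ⟨k, rfl⟩ : ∃ k, d = k + 1 + 1 := ⟨d - 2, by omega⟩
  refine ⟨?_, ⟨⟨_, isBody_ball, mass_ball.symm⟩, ?_⟩, ⟨⟨_, isBody_cube, star_cube.symm⟩, ?_⟩⟩
  · obtain ⟨ν, hν, hmax, hroot⟩ := exists_root k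
    have hup : ∀ K : Set (EuclideanSpace ℝ (Fin (k + 1 + 1))), IsBody K →
        ∀ p : EuclideanSpace ℝ (Fin (k + 1 + 1)), ((p +ᵥ K) ∩ K).Nonempty →
        volHT (relBall K) (hull K p) ≤
          4 * kappa (k + 1) ^ 2 / kappa (k + 1 + 1) * VV (k + 1) ν ^ 2 := by
      intro K hK p hp
      obtain ⟨ν', hν', h⟩ := ht_upper hK hp
      refine h.trans (mul_le_mul_of_nonneg_left ?_ ?_)
      · exact pow_le_pow_left₀ (VV_pos hν').le (hmax ν' hν') 2
      · have := kappa_pos (k + 1 + 1)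
        positivity
    have hval : kappa (k + 1 + 1 - 1) ^ 2 / kappa (k + 1 + 1) * (4 * ν + intI (k + 1 + 1) ν) ^ 2 =
        4 * kappa (k + 1) ^ 2 / kappa (k + 1 + 1) * VV (k + 1) ν ^ 2 := by
      rw [intI_eq, Nat.add_sub_cancel, VV, ((hroot ν).2 rfl).2]
      ring
    refine ⟨ν, fun x => ?_, ?_⟩
    · rw [← hroot x, intT_eq, show -TT (k + 1) x / 4 = -(1 / 4) * TT (k + 1) x by ring]
    rw [hval]
    refine ⟨⟨KK k ν, isBody_KK hν, ?_⟩, ?_⟩
    · exact le_antisymm ((ht_lower hν).trans (le_cTr (hup _ (isBody_KK hν))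
        (two_inter (one_mem_KK hν) KK_neg))) (cTr_le (isBody_KK hν) (hup _ (isBody_KK hν)))
    · rintro x ⟨K, hK, rfl⟩
      exact cTr_le hK (hup K hK)
  · rintro x ⟨K, hK, rfl⟩
    exact cTr_le hK fun p hp => mass_upper hK hp
  · rintro x ⟨K, hK, rfl⟩
    exact cTr_le hK fun p hp => star_upper hK hp

end Pool.Agent.Results.MP_ccd96b_co.Full
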